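import Pool.Agent.H948.SF.Stm
import Pool.Agent.H948.SF.Base

/-!
# Piece DOM of project SF: deterministic domination
-/

namespace Pool.Agent.H81.SF

open Pool.Agent.H948.SF MeasureTheory Set Filter

variable {e M τ : ℕ} {ω : Env (Lab (W e))}

theorem Sv_mono {i i' : ℕ} (h : i' ≤ i) {c : W e} {t : ℤ} (hs : Sv e M τ ω i c t) :
    Sv e M τ ω i' c t := by
  induction h with
  | refl => exact hs
  | step _ ih => exact ih (Sv_of_succ hs)

theorem Blk_con {c w : W e} {t : ℤ} (h : Blk e M τ ω c t w) :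
    Con (TW e) ω (w ++ c) ((t - 1) * τ) c (t * τ) :=
  Con.mono h (Rs_le _ _)

theorem Sv_step {c : W e} {k : ℤ} (h : ∀ i, Sv e M τ ω i c k) :
    ∃ w ∈ Lset e M, Blk e M τ ω c k w ∧ ∀ i, Sv e M τ ω i (w ++ c) (k - 1) := by
  by_contra hcon
  have h1 : ∀ w : W e, ∃ i, w ∈ Lset e M → Blk e M τ ω c k w →
      ¬ Sv e M τ ω i (w ++ c) (k - 1) := by
    intro w
    by_contra h2
    push Not at h2
    apply hcon
    refine ⟨w, (h2 0).1, (h2 0).2.1, fun i => (h2 i).2.2⟩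
  choose f hf using h1
  have hfin := Lset_finite e M
  obtain ⟨N, hN⟩ : ∃ N, ∀ w ∈ Lset e M, f w ≤ N := by
    obtain ⟨N, hN⟩ := (hfin.image f).bddAbove
    exact ⟨N, fun w hw => hN ⟨w, hw, rfl⟩⟩
  obtain ⟨w, hw, hb, hs⟩ := h (N + 1)
  exact hf w hw hb (Sv_mono (hN w hw) hs)

theorem chain (n : ℕ) : ∀ {c : W e} {k : ℤ}, (∀ i, Sv e M τ ω i c k) →
    ∃ c' : W e, (∀ i, Sv e M τ ω i c' (k - n)) ∧
      Con (TW e) ω c' ((k - n) * τ) c (k * τ) := by
  induction n with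
  | zero =>
    intro c k h
    refine ⟨c, by simpa using h, ?_⟩
    have : ((k : ℤ) - ((0 : ℕ) : ℤ)) * (τ : ℤ) = k * τ := by push_cast; ring
    rw [this]
    exact PE.refl _ _
  | succ n ih =>
    intro c k h
    obtain ⟨w, _, hb, hs⟩ := Sv_step h
    obtain ⟨c', h1, h2⟩ := ih hs
    have e1 : k - 1 - (n : ℤ) = k - ((n + 1 : ℕ) : ℤ) := by push_cast; ring
    rw [e1] at h1 h2
    exact ⟨c', h1, h2.trans (Blk_con hb)⟩

theorem past (hτ : 1 ≤ τ) {c : W e} {k : ℤ} (h : ∀ i, Sv e M τ ω i c k) {s : ℝ}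
    (hs : s ≤ (k : ℝ) * τ) : ∃ y', PE (TW e) ω y' s c ((k : ℝ) * τ) := by
  obtain ⟨n, hn⟩ := exists_nat_ge ((k : ℝ) * τ - s)
  obtain ⟨c', _, h2⟩ := chain n h
  have hcon : PE (TW e) ω c' (((k : ℝ) - n) * τ) c ((k : ℝ) * τ) := by
    have := h2
    unfold Pool.Agent.H948.SF.Con at this
    push_cast at this
    exact this
  have hτ' : (1 : ℝ) ≤ τ := by exact_mod_cast hτ
  have hn0 : (0 : ℝ) ≤ n := Nat.cast_nonneg n
  have h1 : ((k : ℝ) - n) * τ ≤ s := by nlinarith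
  obtain ⟨y, _, h4⟩ := hcon.split h1 hs
  exact ⟨y, h4⟩

theorem s_dom : S_DOM := by
  intro e M τ ω v j s t _ hτ hG hs1 hs2 hmark ht0 hst hrec
  obtain ⟨hSv, hhand, hy⟩ := hG
  set y : W e := par e j :: v with hydef
  set z : W e := 0 :: y with hzdef
  have hτ' : (1 : ℝ) ≤ τ := by exact_mod_cast hτ
  -- from `z` at time `j τ` to `y` at time `j τ + 1`
  have p1 : PE (TW e) ω z ((j : ℝ) * τ) y ((j : ℝ) * τ + 1) := by
    have h := Con.mono hhand (Rs_le _ _)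
    unfold Pool.Agent.H948.SF.Con at h
    push_cast at h
    exact h
  have p2 : PE (TW e) ω z ((j : ℝ) * τ) y s := by
    refine p1.stay hs1.le ?_
    intro r h1 h2 hr
    exact hy r hr ⟨h1, h2.trans hs2⟩
  have hadj : (TW e).Adj y v := Or.inl ⟨par e j, rfl⟩
  have p3 : PE (TW e) ω z ((j : ℝ) * τ) v s := p2.cross hadj (by linarith) hmark
  have p4 : PE (TW e) ω z ((j : ℝ) * τ) v t := by
    refine p3.stay hst ?_
    intro r h1 h2 hr
    exact hrec r hr ⟨h1, h2⟩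
  by_cases hj : (j : ℝ) * τ ≤ 0
  · obtain ⟨u, h1, h2⟩ := p4.split hj ht0
    refine ⟨u, fun s' hs' => ?_, h2⟩
    obtain ⟨y', hy'⟩ := past hτ hSv (s := min s' ((j : ℝ) * τ)) (min_le_right _ _)
    obtain ⟨y'', _, h⟩ := (hy'.trans h1).split (min_le_left _ _) hs'.le
    exact ⟨y'', h⟩
  · push Not at hj
    have hj0 : 0 ≤ j := by
      by_contra hneg
      push Not at hneg
      have : (j : ℝ) < 0 := by exact_mod_cast hneg
      nlinarith
    obtain ⟨n, rfl⟩ := Int.eq_ofNat_of_zero_le hj0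
    obtain ⟨c', h1, h2⟩ := chain n hSv
    have e0 : ((n : ℤ) - (n : ℤ)) = 0 := by ring
    rw [e0] at h1
    have h3 : PE (TW e) ω c' 0 z (((n : ℤ) : ℝ) * τ) := by
      have := h2
      unfold Pool.Agent.H948.SF.Con at this
      push_cast at this ⊢
      simpa using this
    refine ⟨c', fun s' hs' => ?_, h3.trans p4⟩
    obtain ⟨y', hy'⟩ := past hτ h1 (s := s') (by simpa using hs'.le)
    refine ⟨y', ?_⟩
    simpa using hy'

end Pool.Agent.H81.SF
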